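import Pool.Agent.Q187.MC.ConvD

/-!
# Murre's conjectures for motives of abelian type and algebraically trivial cycles

Murre's conjectures (A) - (D) for all the motives of abelian type over the complex numbers are
equivalent to the injectivity of the Abel-Jacobi maps on the algebraically trivial classes of
codimension `j` in the motives `h^1(T)^{⊗(2 j - 1)}`, for all curves `T` and all `j ≥ 2`. For the
motives which occur in products of at most `d` curves it suffices to treat `2 ≤ j ≤ d`.
-/

open CategoryTheory AlgebraicGeometry

universe u v w

namespace Pool.Agent.Results.MP_38de51_ag.AlgebraicallyTrivialCyclesDecide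

open Pool.Agent.H914 Pool.Agent.H914.VarClass Pool.Agent.H914.VarClass.Obj Pool.Agent.W492.BB
  Pool.Agent.TH133 Pool.Agent.Q187.AJS Pool.Agent.Q187.BCS Pool.Agent.Q187.MCS

/-- **Murre's conjectures for motives of abelian type.** Let `C` be the Chow theory and `H` a Weil
cohomology theory on a class of smooth projective varieties closed under products. Assume the
theorem of Bloch and Srinivas on families of cycles over curves (`FibreProperty`; it holds over
universal domains) and that any two curves are dominated by a third one. Let `N` be the family of
the kernels of the Abel-Jacobi maps (for complex varieties).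

1. Assume that algebraically trivial classes in the kernel are given by families over curves acting
  as zero on `H^1` (`SpreadProperty`: Poincare's reducibility theorem). Then (A), (B), (C) and (D)
  hold for all the motives `(X, p)` such that a Tate twist of `h(X)` is a direct summand of the
  motive of a product of curves if and only if for all curves `T` and all `j ≥ 2` the Abel-Jacobi
  map is injective on the algebraically trivial classes in `CH^j(h^1(T)^{⊗(2 j - 1)})`.
2. If this is known for `2 ≤ j ≤ d` only, then (A), (B), (C) and (D) hold for all motives `(X, p)`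
  such that a Tate twist of `h(X)` is a direct summand of the motive of a product of at most `d`
  curves. -/
theorem result {k : Type u} [Field k] {𝒱 : VarClass k} {C : TheoryData.{u, v, 0} 𝒱 ℚ}
    [IsChowProj C] {K : Type w} [Field K] {H : WeilTheoryData.{u, v, w} C K} [IsWeilProj H]
    (hF : FibreProperty C) (hc : CommonCovers C) {N : Fam C} (hN : IsAbelJacobiKernel C H N) :
    (SpreadProperty C H N →
      ((∀ (X Z : 𝒱.Obj) (c : ℕ) (p : C.A (X.prod X)), IsProductOfCurves Z →
        IsSummand C c X Z → IsMotive C p → MurreConjectures C H p) ↔
        ∀ j : ℕ, 2 ≤ j → InjectiveAbelJacobi C H N j)) ∧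
    ∀ d : ℕ, (∀ j : ℕ, 2 ≤ j → j ≤ d → InjectiveAbelJacobi C H N j) →
      ∀ (X Z : 𝒱.Obj) (c : ℕ) (p : C.A (X.prod X)), IsProductOfCurves Z → Z.dim ≤ d →
        IsSummand C c X Z → IsMotive C p → MurreConjectures C H p := by
  obtain ⟨h1, h2⟩ := main_m' (H := H) hF hc
  obtain ⟨h3, h4⟩ := h2 N hN
  exact ⟨fun hG => (h1.out 0 2).trans (h3 hG), h4⟩

end Pool.Agent.Results.MP_38de51_ag.AlgebraicallyTrivialCyclesDecide
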