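import Pool.Agent.Q28.MM.Main

/-!
# Chow-Kunneth decompositions of complementary motives

`𝒱` is a class of smooth projective geometrically irreducible varieties over the field `k` closed
under products (for example all of them), `C` the Chow groups with rational coefficients (in the
form of their formal properties, `IsChowProj`) and `H` a Weil cohomology theory (`IsWeilProj`).

No conjecture is assumed: the complementary motives `(X, p)` and `(X, 1 - p)` both have
Chow-Kunneth decompositions if and only if `X` has one, `π`, with `π_b ∘ p ∘ π_a = 0` for `a < b`;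
and for every such `π` the motive `(X, p)` has one whose filtration is the intersection of
`CH(X, p)` with the filtration given by `π`.
-/

open CategoryTheory AlgebraicGeometry

set_option autoImplicit false

universe u v w

namespace Pool.Agent.Results.MP_38de51_ag.ComplementaryMotives

open Pool.Agent.H914 Pool.Agent.W492.BB Pool.Agent.TH133 Pool.Agent.Q28.MM Pool.Agent.W550.Corr

/-- Chow-Kunneth decompositions of the motives `(X, p)` and `(X, 1 - p)` and of `X`. -/
theorem result {k : Type u} [Field k] {𝒱 : VarClass k} (C : TheoryData.{u, v, 0} 𝒱 ℚ)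
    [IsChowProj C] {K : Type w} [Field K] (H : WeilTheoryData.{u, v, w} C K) [IsWeilProj H]
    (X : 𝒱.Obj) (p : C.A (X.prod X)) (hp : IsProjector p) :
    (((∃ ρ, IsMotiveCK H p ρ) ∧ ∃ ρ, IsMotiveCK H (dg C X - p) ρ) ↔
      ∃ π, IsCK H X π ∧ ∀ a b : ℕ, a < b → C.comp (C.comp (π a) p) (π b) = 0) ∧
    ∀ π, IsCK H X π → (∀ a b : ℕ, a < b → C.comp (C.comp (π a) p) (π b) = 0) →
      ∃ ρ, IsMotiveCK H p ρ ∧ ∀ (j ν : ℕ) (x : C.A X),
        x ∈ ckFil C ρ j ν ↔ x ∈ ckFil C π j ν ∧ C.act p x = x :=
  (main C H).2.2 X p hp

end Pool.Agent.Results.MP_38de51_ag.ComplementaryMotives
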