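import Pool.Agent.Q28.MM.Main

/-!
# Murre's conjectures for all motives from (D) for one decomposition per variety

`𝒱` is a class of smooth projective geometrically irreducible varieties over the field `k` closed
under products (for example all of them), `C` the Chow groups with rational coefficients (in the
form of their formal properties, `IsChowProj`) and `H` a Weil cohomology theory (`IsWeilProj`).
Motives are pairs `(X, p)` with a projector `p`; Tate twists only shift all indices. Everything is
written cohomologically: `CH_l(M)` is `CH^(d-l)`, and `H_i(M)` is `H^(2d-i)`, `d = dim X`.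

(1) Let `F` be a family of varieties such that the motive of every variety `X` in `𝒱` is, up to a
twist, a direct summand of the motive of some `Z` in `F`. Then Murre's conjectures (A), (B), (C), (D)
hold for all motives `(X, p)` if and only if every `Z` in `F` has one Chow-Kunneth decomposition `π`
such that, in the one group `CH^(dim Z)(Z × Z)`, the homologically trivial classes lie in `F^1` for
the decomposition `π^t × π` of `Z × Z`.
(2) Locally: if `Z` has such a decomposition and a twist of `h(X)` is a direct summand of `h(Z)`, then
(A), (B), (C), (D) hold for all direct summands `(X, p)` of `h(X)`, and there are no phantoms.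
-/

open CategoryTheory AlgebraicGeometry

set_option autoImplicit false

universe u v w

namespace Pool.Agent.Results.MP_38de51_ag.OneDecompositionPerGenerator

open Pool.Agent.H914 Pool.Agent.W492.BB Pool.Agent.TH133 Pool.Agent.Q28.MM Pool.Agent.W550.Corr

/-- Murre's conjectures for Chow motives and one decomposition per variety. -/
theorem result {k : Type u} [Field k] {𝒱 : VarClass k} (C : TheoryData.{u, v, 0} 𝒱 ℚ)
    [IsChowProj C] {K : Type w} [Field K] (H : WeilTheoryData.{u, v, w} C K) [IsWeilProj H] :
    (∀ F : 𝒱.Obj → Prop, (∀ X, ∃ Z c, F Z ∧ Summand C c X Z) →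
      ((∀ (X : 𝒱.Obj) (p : C.A (X.prod X)), IsProjector p → Murre H p) ↔
        ∀ Z, F Z → ∃ π, IsCK H Z π ∧ SatisfiesDAt H (squareCK π) Z.dim)) ∧
    (∀ (Z X : 𝒱.Obj) (c : ℕ), Summand C c X Z →
      (∃ π, IsCK H Z π ∧ SatisfiesDAt H (squareCK π) Z.dim) →
      NoPhantoms H X ∧ ∀ p : C.A (X.prod X), IsProjector p → Murre H p) :=
  ⟨(main C H).1, (main C H).2.1⟩

end Pool.Agent.Results.MP_38de51_ag.OneDecompositionPerGenerator
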