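import Pool.Agent.Q187.MC.ConvD

/-!
# Murre's conjectures for motives of abelian type: vanishing in the middle

Murre's conjectures (A) - (D) for all the motives of abelian type are equivalent to the vanishing
of the homologically trivial classes in `CH^j` of the motives `h^1(T)^{⊗ 2 j}`, for all curves `T`
and all `j ≥ 1`.
-/

open CategoryTheory AlgebraicGeometry

universe u v w

namespace Pool.Agent.Results.MP_38de51_ag.VanishingInTheMiddleDecides

open Pool.Agent.H914 Pool.Agent.H914.VarClass Pool.Agent.H914.VarClass.Obj Pool.Agent.W492.BB
  Pool.Agent.TH133 Pool.Agent.Q187.AJS Pool.Agent.Q187.BCS Pool.Agent.Q187.MCS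

/-- **Murre's conjectures for motives of abelian type.** Let `C` be the Chow theory and `H` a Weil
cohomology theory on a class of smooth projective varieties closed under products. Assume the
theorem of Bloch and Srinivas on families of cycles over curves (`FibreProperty`; it holds over
universal domains) and that any two curves are dominated by a third one. The following are
equivalent: (A), (B), (C) and (D) hold for all the motives `(X, p)` such that a Tate twist of `h(X)`
is a direct summand of the motive of a product of curves; (D) holds for all products of curves and
all their Chow-Kunneth decompositions; for all curves `T` and all `j ≥ 1` homologically trivial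
classes in `CH^j(h^1(T)^{⊗ 2 j})` are zero. -/
theorem result {k : Type u} [Field k] {𝒱 : VarClass k} {C : TheoryData.{u, v, 0} 𝒱 ℚ}
    [IsChowProj C] {K : Type w} [Field K] {H : WeilTheoryData.{u, v, w} C K} [IsWeilProj H]
    (hF : FibreProperty C) (hc : CommonCovers C) :
    List.TFAE [
      ∀ (X Z : 𝒱.Obj) (c : ℕ) (p : C.A (X.prod X)), IsProductOfCurves Z →
        IsSummand C c X Z → IsMotive C p → MurreConjectures C H p,
      ∀ Z : 𝒱.Obj, IsProductOfCurves Z → ∀ π, IsChowKunneth C H Z π → SatisfiesD C H π,
      ∀ j : ℕ, 1 ≤ j → VanishingInTheMiddle C H j] :=
  (main_m' hF hc).1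

end Pool.Agent.Results.MP_38de51_ag.VanishingInTheMiddleDecides
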